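import Pool.Agent.V7H55.FP.Defs2

set_option autoImplicit false

/-!
# An element of finite order of a 2-closed Galois group gives an ordering
-/

namespace Pool.Agent.V7H31.FP

open Pool.Agent.V7H55.FP

/-- an ordering from its nonnegative elements -/
theorem order_of_cone {F : Type} [Field F] (P : F → Prop) (h0 : P 0) (h1 : P 1)
    (hadd : ∀ x y, P x → P y → P (x + y)) (hmul : ∀ x y, P x → P y → P (x * y))
    (htot : ∀ x, P x ∨ P (-x)) (hanti : ∀ x, P x → P (-x) → x = 0) :
    ∃ (_ : LinearOrder F) (_ : IsStrictOrderedRing F), ∀ x : F, 0 ≤ x ↔ P x := by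
  classical
  let o : LinearOrder F :=
    { le := fun x y => P (y - x)
      le_refl := fun x => by
        change P (x - x)
        rw [sub_self]
        exact h0
      le_trans := fun x y z hxy hyz => by
        change P (z - x)
        have := hadd _ _ hyz hxy
        rwa [sub_add_sub_cancel] at this
      le_antisymm := fun x y hxy hyx => by
        have h2 : P (-(y - x)) := by
          rw [neg_sub]
          exact hyx
        exact (sub_eq_zero.1 (hanti _ hxy h2)).symm
      le_total := fun x y => by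
        rcases htot (y - x) with h | h
        · exact Or.inl h
        · refine Or.inr ?_
          change P (x - y)
          rwa [neg_sub] at h
      toDecidableLE := Classical.decRel _ }
  have hle : ∀ x y : F, x ≤ y ↔ P (y - x) := fun x y => Iff.rfl
  have hm : IsOrderedAddMonoid F :=
    { add_le_add_left := fun a b hab c => by
        rw [hle] at hab ⊢
        rwa [add_sub_add_right_eq_sub] }
  have hz : ZeroLEOneClass F := ⟨by
    rw [hle, sub_zero]
    exact h1⟩
  have hr : IsOrderedRing F := IsOrderedRing.of_mul_nonneg fun x y hx hy => by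
    rw [hle, sub_zero] at hx hy ⊢
    exact hmul _ _ hx hy
  refine ⟨o, IsOrderedRing.toIsStrictOrderedRing F, fun x => ?_⟩
  rw [hle, sub_zero]

section

variable {F K : Type} [Field F] [Field K] [Algebra F K] [IsGalois F K]

/-- elements of odd order are trivial -/
theorem odd_eq_one (hP : Pro2 (K ≃ₐ[F] K)) (τ : K ≃ₐ[F] K) {b : ℕ} (hb : Odd b)
    (h : τ ^ b = 1) : τ = 1 := by
  ext x
  have hx : IsIntegral F x := (IsGalois.integral F x)
  let L : IntermediateField F K := IntermediateField.normalClosure F (IntermediateField.adjoin F {x}) K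
  have hfd : FiniteDimensional F (IntermediateField.adjoin F {x}) :=
    IntermediateField.adjoin.finiteDimensional hx
  have hL : FiniteDimensional F L := inferInstance
  have hN : Normal F L := inferInstance
  have hV : L.fixingSubgroup.Normal := by
    rw [← IntermediateField.restrictNormalHom_ker]
    infer_instance
  obtain ⟨m, hm⟩ := hP L.fixingSubgroup hV L.fixingSubgroup_isOpen
  have h1 : τ ^ (2 ^ m) ∈ L.fixingSubgroup := by
    rw [← hm]
    exact Subgroup.pow_index_mem _ τ
  have h2 : (QuotientGroup.mk τ : (K ≃ₐ[F] K) ⧸ L.fixingSubgroup) = 1 := by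
    rw [← orderOf_eq_one_iff]
    refine Nat.eq_one_of_dvd_coprimes (a := 2 ^ m) (b := b) ?_ ?_ ?_
    · exact (Nat.Coprime.pow_left m (Nat.coprime_two_left.2 hb))
    · rw [orderOf_dvd_iff_pow_eq_one, ← QuotientGroup.mk_pow, QuotientGroup.eq_one_iff]
      exact h1
    · rw [orderOf_dvd_iff_pow_eq_one, ← QuotientGroup.mk_pow, h]
      rfl
  rw [QuotientGroup.eq_one_iff] at h2
  have hxL : x ∈ L := by
    have h3 : IntermediateField.adjoin F {x} ≤ L := IntermediateField.le_normalClosure _
    exact h3 (IntermediateField.mem_adjoin_simple_self F x)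
  rw [IntermediateField.mem_fixingSubgroup_iff] at h2
  simpa using h2 x hxL

/-- the order is a power of two -/
theorem pow_two_pow (hP : Pro2 (K ≃ₐ[F] K)) (σ : K ≃ₐ[F] K) {n : ℕ} (hn : 0 < n)
    (h : σ ^ n = 1) : ∃ k : ℕ, σ ^ (2 ^ k) = 1 := by
  obtain ⟨k, b, hb, hk⟩ := Nat.exists_eq_two_pow_mul_odd hn.ne'
  refine ⟨k, odd_eq_one hP _ hb ?_⟩
  rw [← pow_mul, ← hk, h]

end

/-- the imaginary unit is moved by an involution -/
theorem inv_i {K : Type} [Field K] (h2 : (2 : K) ≠ 0) (hsq : ∀ x : K, ∃ y, y ^ 2 = x)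
    (τ : K ≃+* K) (hτ : ∀ x, τ (τ x) = x) (hne : ∃ x, τ x ≠ x) {i : K} (hi : i ^ 2 = -1) :
    τ i = -i := by
  have h3 : (τ i - i) * (τ i + i) = 0 := by
    have : τ i ^ 2 = -1 := by rw [← map_pow, hi, map_neg, map_one]
    linear_combination this - hi
  rcases mul_eq_zero.1 h3 with h4 | h4
  · exfalso
    have h5 : τ i = i := sub_eq_zero.1 h4
    obtain ⟨s, hs⟩ := hne
    set u := s - τ s with hu
    have hu0 : u ≠ 0 := fun e => hs (sub_eq_zero.1 e).symm
    have hτu : τ u = -u := by
      rw [hu, map_sub, hτ]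
      ring
    obtain ⟨w, hw⟩ := hsq u
    have h6 : (w * τ w) ^ 2 = -u ^ 2 := by
      have : (τ w) ^ 2 = -u := by rw [← map_pow, hw, hτu]
      rw [mul_pow, hw, this]
      ring
    have h7 : (w * τ w * i) ^ 2 = u ^ 2 := by
      rw [mul_pow, h6, hi]
      ring
    have h8 : τ (w * τ w * i) = w * τ w * i := by
      rw [map_mul, map_mul, hτ, h5]
      ring
    rcases sq_eq_sq_iff_eq_or_eq_neg.1 h7 with h9 | h9
    · rw [h9, hτu] at h8
      have : 2 * u = 0 := by linear_combination -h8
      rcases mul_eq_zero.1 this with h | h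
      · exact h2 h
      · exact hu0 h
    · rw [h9, map_neg, hτu] at h8
      have : 2 * u = 0 := by linear_combination h8
      rcases mul_eq_zero.1 this with h | h
      · exact h2 h
      · exact hu0 h
  · linear_combination h4

/-- **AS**: an element of finite order gives an ordering -/
theorem t_AS : S_AS := by
  intro F K _ _ _ _ h2 hsq hP σ hσ n hn hσn
  obtain ⟨i, hi⟩ := hsq (-1)
  have hi0 : i ≠ 0 := by
    rintro rfl
    simp at hi
  have hii : i ≠ -i := by
    intro e
    have : 2 * i = 0 := by linear_combination e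
    rcases mul_eq_zero.1 this with h | h
    · exact h2 h
    · exact hi0 h
  -- the order of `σ` is two
  have hex := pow_two_pow hP σ hn hσn
  classical
  set k := Nat.find hex with hk
  have hk1 : σ ^ (2 ^ k) = 1 := Nat.find_spec hex
  have hk0 : k ≠ 0 := by
    intro e
    rw [e, pow_zero, pow_one] at hk1
    exact hσ hk1
  obtain ⟨j, hj⟩ := Nat.exists_eq_succ_of_ne_zero hk0
  have hmin : σ ^ (2 ^ j) ≠ 1 := Nat.find_min hex (by omega)
  have hinv : ∀ x, (σ ^ (2 ^ j)) ((σ ^ (2 ^ j)) x) = x := by
    intro x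
    have h3 : σ ^ (2 ^ j) * σ ^ (2 ^ j) = 1 := by
      rw [← pow_add, ← two_mul, ← pow_succ']
      rw [hj] at hk1
      exact hk1
    have := congrArg (fun g : K ≃ₐ[F] K => g x) h3
    simpa using this
  have hτi : (σ ^ (2 ^ j)) i = -i := by
    have := inv_i h2 hsq ((σ ^ (2 ^ j)) : K ≃ₐ[F] K).toRingEquiv hinv (by
      by_contra hc
      push Not at hc
      exact hmin (AlgEquiv.ext fun x => hc x)) hi
    exact this
  have hσi : σ i = i ∨ σ i = -i := by
    have h3 : σ i ^ 2 = i ^ 2 := by rw [← map_pow, hi, map_neg, map_one]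
    exact sq_eq_sq_iff_eq_or_eq_neg.1 h3
  have hσ2i : (σ ^ 2) i = i := by
    rw [pow_two, AlgEquiv.mul_apply]
    rcases hσi with h | h
    · rw [h, h]
    · rw [h, map_neg, h, neg_neg]
  have hj0 : j = 0 := by
    by_contra hj0
    obtain ⟨l, hl⟩ := Nat.exists_eq_succ_of_ne_zero hj0
    have h3 : ∀ m : ℕ, ((σ ^ 2) ^ m) i = i := by
      intro m
      induction m with
      | zero => rfl
      | succ m ih => rw [pow_succ, AlgEquiv.mul_apply, hσ2i, ih]
    have h4 := h3 (2 ^ l)
    rw [← pow_mul, ← pow_succ', ← Nat.succ_eq_add_one, ← hl, hτi] at h4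
    exact hii h4.symm
  rw [hj0, pow_zero, pow_one] at hτi hinv
  -- the ordering
  obtain ⟨o, ho, hle⟩ := order_of_cone (F := F)
    (fun x => ∃ y : K, y ^ 2 = algebraMap F K x ∧ σ y = y)
    ⟨0, by simp, by simp⟩ ⟨1, by simp, by simp⟩ (by
      rintro x y ⟨z, hz, hz'⟩ ⟨w, hw, hw'⟩
      obtain ⟨v, hv⟩ := hsq (z + i * w)
      refine ⟨v * σ v, ?_, ?_⟩
      · have h3 : (σ v) ^ 2 = z - i * w := by
          rw [← map_pow, hv, map_add, map_mul, hz', hw', hτi]
          ring
        rw [mul_pow, hv, h3, map_add, ← hz, ← hw]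
        linear_combination (-w ^ 2) * hi
      · rw [map_mul, hinv, mul_comm]) (by
      rintro x y ⟨z, hz, hz'⟩ ⟨w, hw, hw'⟩
      refine ⟨z * w, ?_, ?_⟩
      · rw [mul_pow, hz, hw, map_mul]
      · rw [map_mul, hz', hw']) (by
      intro x
      obtain ⟨y, hy⟩ := hsq (algebraMap F K x)
      have h3 : σ y ^ 2 = y ^ 2 := by rw [← map_pow, hy, AlgEquiv.commutes]
      rcases sq_eq_sq_iff_eq_or_eq_neg.1 h3 with h4 | h4
      · exact Or.inl ⟨y, hy, h4⟩
      · refine Or.inr ⟨i * y, ?_, ?_⟩
        · rw [mul_pow, hi, hy, map_neg]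
          ring
        · rw [map_mul, h4, hτi, neg_mul_neg]) (by
      rintro x ⟨z, hz, hz'⟩ ⟨w, hw, hw'⟩
      by_contra hx
      have hx' : algebraMap F K x ≠ 0 := by
        rw [Ne, FaithfulSMul.algebraMap_eq_zero_iff]
        exact hx
      have hw0 : w ≠ 0 := by
        rintro rfl
        rw [map_neg] at hw
        apply hx'
        have h5 : -(algebraMap F K x) = 0 := by
          rw [← hw]
          ring
        exact neg_eq_zero.1 h5
      have h3 : (z / w) ^ 2 = i ^ 2 := by
        rw [div_pow, hz, hw, hi, map_neg, div_neg, div_self hx']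
      have h4 : σ (z / w) = z / w := by rw [map_div₀, hz', hw']
      rcases sq_eq_sq_iff_eq_or_eq_neg.1 h3 with h5 | h5
      · rw [h5, hτi] at h4
        exact hii h4.symm
      · rw [h5, map_neg, hτi, neg_neg] at h4
        exact hii h4)
  refine ⟨o, ho, fun x => ?_⟩
  rw [← hle]
  exact ⟨fun h => lt_of_le_of_ne h (Units.ne_zero x).symm, fun h => h.le⟩

end Pool.Agent.V7H31.FP
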